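import Pool.Agent.H24.RCM.Targets

set_option autoImplicit false

namespace Pool.Agent.H80.RCM

open NumberField Polynomial nonZeroDivisors Pool.Agent.H26.NL Pool.Agent.H24.RCM

theorem pf_HEV : T_HEV := by
  classical
  intro G _ _ c hc hc1
  let F : Finset (Finset G) := Finset.univ.filter fun T => ∀ t ∈ T, c * t ∉ T
  have hF : F.Nonempty := ⟨∅, by simp [F]⟩
  obtain ⟨T, hT, hmax⟩ := Finset.exists_max_image F Finset.card hF
  have hT' : ∀ t ∈ T, c * t ∉ T := (Finset.mem_filter.mp hT).2
  have hcov : ∀ g, g ∈ T ∨ c * g ∈ T := by
    intro g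
    by_contra h
    push Not at h
    obtain ⟨h1, h2⟩ := h
    have h3 : insert g T ∈ F := by
      refine Finset.mem_filter.mpr ⟨Finset.mem_univ _, ?_⟩
      intro t ht hct
      rcases Finset.mem_insert.mp ht with rfl | ht
      · rcases Finset.mem_insert.mp hct with e | h
        · exact hc1 (mul_eq_right.mp e)
        · exact h2 h
      · rcases Finset.mem_insert.mp hct with e | h
        · apply h2
          rw [← e, ← mul_assoc, hc, one_mul]
          exact ht
        · exact hT' t ht h
    have h4 := hmax _ h3
    rw [Finset.card_insert_of_notMem h1] at h4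
    omega
  refine ⟨T, ?_, ?_⟩
  · have h1 : (Finset.univ : Finset G) ⊆ T ∪ T.image (fun t => c * t) := by
      intro g _
      rcases hcov g with h | h
      · exact Finset.mem_union_left _ h
      · refine Finset.mem_union_right _ (Finset.mem_image.mpr ⟨c * g, h, ?_⟩)
        rw [← mul_assoc, hc, one_mul]
    have h2 := Finset.card_le_card h1
    have h3 := Finset.card_union_le T (T.image (fun t => c * t))
    have h4 : (T.image (fun t => c * t)).card ≤ T.card := Finset.card_image_le
    rw [Finset.card_univ] at h2
    omega
  · intro V hV hc2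
    funext t
    by_cases h : t ∈ T
    · rw [hc2 t]
      exact hV _ (hT' t h)
    · exact hV t h

end Pool.Agent.H80.RCM
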